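import Pool.Agent.helper1.PR.Defs

/-!
PR project (MP_15abe0_co), module A: an invariant mean on the bounded functions on the commutative
countable semigroup `S = ℕ+ × ℕ+` (averages over boxes in the generators, limit along a
nonprincipal ultrafilter).
-/

namespace Pool.Agent.helper1.PR

open Finset Filter Topology

private theorem exists_gen : ∃ g : ℕ → S, Function.Surjective g := exists_surjective_nat S

private noncomputable def gen : ℕ → S := exists_gen.choose

private theorem gen_surj : Function.Surjective gen := exists_gen.choose_spec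

private noncomputable def pt (n : ℕ) (i : Fin (n + 1) → Fin (n + 1)) : S :=
  ∏ k : Fin (n + 1), gen (k : ℕ) ^ (i k : ℕ)

private theorem pt_shift (n : ℕ) (i : Fin (n + 1) → Fin (n + 1)) (k : Fin (n + 1))
    (h : i k ≠ Fin.last n) : pt n (i + Pi.single k 1) = gen k * pt n i := by
  have h1 : ∀ j : Fin (n + 1), gen j ^ (((i + Pi.single k 1 : Fin (n + 1) → Fin (n + 1)) j :
      Fin (n + 1)) : ℕ) = gen j ^ (if j = k then 1 else 0) * gen j ^ (i j : ℕ) := by
    intro j
    by_cases hj : j = k
    · subst hj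
      rw [Pi.add_apply, Pi.single_eq_same, Fin.val_add_one, if_neg h, if_pos rfl, pow_succ', pow_one]
    · rw [Pi.add_apply, Pi.single_eq_of_ne hj, add_zero, if_neg hj, pow_zero, one_mul]
  unfold pt
  rw [Finset.prod_congr rfl (fun j _ => h1 j), Finset.prod_mul_distrib]
  congr 1
  simp [pow_ite]

private theorem card_last (n : ℕ) (k : Fin (n + 1)) :
    #{i : Fin (n + 1) → Fin (n + 1) | i k = Fin.last n} = (n + 1) ^ n := by
  have h : ({i : Fin (n + 1) → Fin (n + 1) | i k = Fin.last n} : Finset _) =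
      Fintype.piFinset (Function.update (fun _ : Fin (n + 1) => (univ : Finset (Fin (n + 1)))) k
        {Fin.last n}) := by
    ext i
    simp only [mem_filter, mem_univ, true_and, Fintype.mem_piFinset]
    constructor
    · intro h j
      by_cases hj : j = k
      · subst hj; simp [h]
      · simp [Function.update_of_ne hj]
    · intro h
      simpa using h k
  rw [h, Fintype.card_piFinset]
  have h2 : ∀ j : Fin (n + 1), #(Function.update (fun _ => (univ : Finset (Fin (n + 1)))) k
      {Fin.last n} j) = Function.update (fun _ => n + 1) k 1 j := by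
    intro j
    by_cases hj : j = k
    · subst hj; simp
    · simp [Function.update_of_ne hj]
  rw [Finset.prod_congr rfl (fun j _ => h2 j), Finset.prod_update_of_mem (mem_univ k)]
  have h3 : #((univ : Finset (Fin (n + 1))) \ {k}) = n := by
    rw [Finset.card_sdiff_of_subset (Finset.subset_univ _)]
    simp
  rw [Finset.prod_const, h3, one_mul]

private noncomputable def av (F : S → ℝ) (n : ℕ) : ℝ :=
  (∑ i : Fin (n + 1) → Fin (n + 1), F (pt n i)) / ((n : ℝ) + 1) ^ (n + 1)

private theorem av_add (F G : S → ℝ) (n : ℕ) : av (fun s => F s + G s) n = av F n + av G n := by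
  unfold av
  rw [Finset.sum_add_distrib, add_div]

private theorem av_smul (c : ℝ) (F : S → ℝ) (n : ℕ) : av (fun s => c * F s) n = c * av F n := by
  unfold av
  rw [← Finset.mul_sum, mul_div_assoc]

private theorem av_mono {F G : S → ℝ} (h : ∀ s, F s ≤ G s) (n : ℕ) : av F n ≤ av G n := by
  unfold av
  have h0 : (0 : ℝ) ≤ ((n : ℝ) + 1) ^ (n + 1) := by positivity
  exact div_le_div_of_nonneg_right (Finset.sum_le_sum fun i _ => h _) h0

private theorem av_const (c : ℝ) (n : ℕ) : av (fun _ => c) n = c := by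
  unfold av
  have h0 : ((n : ℝ) + 1) ^ (n + 1) ≠ 0 := by positivity
  rw [Finset.sum_const, Finset.card_univ, Fintype.card_fun, Fintype.card_fin, nsmul_eq_mul]
  push_cast
  field_simp

private theorem av_bd {F : S → ℝ} {C : ℝ} (h : ∀ s, |F s| ≤ C) (n : ℕ) :
    av F n ∈ Set.Icc (-C) C := by
  constructor
  · rw [← av_const (-C) n]
    exact av_mono (fun s => neg_le_of_abs_le (h s)) n
  · rw [← av_const C n]
    exact av_mono (fun s => le_of_abs_le (h s)) n

private theorem av_shift {F : S → ℝ} {C : ℝ} (h : ∀ s, |F s| ≤ C) (n : ℕ) (k : Fin (n + 1)) :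
    |av (fun s => F (gen k * s)) n - av F n| ≤ 2 * C / ((n : ℝ) + 1) := by
  have h1 : ∑ i : Fin (n + 1) → Fin (n + 1), F (pt n (i + Pi.single k 1)) =
      ∑ i : Fin (n + 1) → Fin (n + 1), F (pt n i) :=
    Equiv.sum_comp (Equiv.addRight (Pi.single k 1 : Fin (n + 1) → Fin (n + 1)))
      (fun i => F (pt n i))
  have h2 : ∀ i : Fin (n + 1) → Fin (n + 1),
      |F (gen k * pt n i) - F (pt n (i + Pi.single k 1))| ≤
        if i k = Fin.last n then 2 * C else 0 := by
    intro i
    by_cases hi : i k = Fin.last n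
    · rw [if_pos hi]
      have := abs_sub (F (gen k * pt n i)) (F (pt n (i + Pi.single k 1)))
      have h3 := h (gen k * pt n i)
      have h4 := h (pt n (i + Pi.single k 1))
      linarith
    · rw [if_neg hi, pt_shift n i k hi, sub_self, abs_zero]
  have h3 : |∑ i : Fin (n + 1) → Fin (n + 1), F (gen k * pt n i) -
      ∑ i : Fin (n + 1) → Fin (n + 1), F (pt n i)| ≤ ((n : ℝ) + 1) ^ n * (2 * C) := by
    rw [← h1, ← Finset.sum_sub_distrib]
    refine (Finset.abs_sum_le_sum_abs _ _).trans ?_
    refine (Finset.sum_le_sum fun i _ => h2 i).trans ?_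
    rw [← Finset.sum_filter, Finset.sum_const, card_last, nsmul_eq_mul]
    push_cast
    exact le_refl _
  have h0 : (0 : ℝ) < (n : ℝ) + 1 := by positivity
  have h4 : av (fun s => F (gen k * s)) n - av F n =
      (∑ i : Fin (n + 1) → Fin (n + 1), F (gen k * pt n i) -
      ∑ i : Fin (n + 1) → Fin (n + 1), F (pt n i)) / ((n : ℝ) + 1) ^ (n + 1) := by
    unfold av
    rw [sub_div]
  rw [h4, abs_div, abs_of_pos (pow_pos h0 (n + 1)), div_le_div_iff₀ (pow_pos h0 (n + 1)) h0,
    pow_succ]
  calc _ ≤ ((n : ℝ) + 1) ^ n * (2 * C) * ((n : ℝ) + 1) :=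
        mul_le_mul_of_nonneg_right h3 h0.le
    _ = _ := by ring

private noncomputable def mn (F : S → ℝ) : ℝ :=
  limUnder (hyperfilter ℕ : Filter ℕ) (av F)

private theorem mn_tendsto {F : S → ℝ} (hF : Bd F) :
    Tendsto (av F) (hyperfilter ℕ : Filter ℕ) (𝓝 (mn F)) := by
  obtain ⟨C, hC⟩ := hF
  refine tendsto_nhds_limUnder ?_
  have h1 := isCompact_Icc.ultrafilter_le_nhds ((hyperfilter ℕ).map (av F))
    (s := Set.Icc (-C) C) (by
      rw [Ultrafilter.coe_map]
      refine le_principal_iff.2 ?_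
      exact Filter.mem_map.2 (Filter.univ_mem' fun n => av_bd hC n))
  obtain ⟨x, _, hx⟩ := h1
  exact ⟨x, hx⟩

private theorem mn_eq {F : S → ℝ} (hF : Bd F) {x : ℝ}
    (h : Tendsto (av F) (hyperfilter ℕ : Filter ℕ) (𝓝 x)) : mn F = x :=
  tendsto_nhds_unique (mn_tendsto hF) h

private theorem Bd.add' {F G : S → ℝ} (hF : Bd F) (hG : Bd G) : Bd (fun s => F s + G s) := by
  obtain ⟨C, hC⟩ := hF
  obtain ⟨D, hD⟩ := hG
  exact ⟨C + D, fun s => (abs_add_le _ _).trans (add_le_add (hC s) (hD s))⟩

private theorem Bd.smul' {F : S → ℝ} (c : ℝ) (hF : Bd F) : Bd (fun s => c * F s) := by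
  obtain ⟨C, hC⟩ := hF
  exact ⟨|c| * C, fun s => by rw [abs_mul]; exact mul_le_mul_of_nonneg_left (hC s) (abs_nonneg c)⟩

/-- there is an invariant mean on the bounded functions on the semigroup of types -/
theorem exists_mean : ∃ m : (S → ℝ) → ℝ, IsMean m := by
  refine ⟨mn, ⟨?_, ?_, ?_, ?_, ?_⟩⟩
  · intro F G hF hG
    refine mn_eq (Bd.add' hF hG) ?_
    have h := (mn_tendsto hF).add (mn_tendsto hG)
    exact h.congr fun n => (av_add F G n).symm
  · intro c F hF
    refine mn_eq (Bd.smul' c hF) ?_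
    have h := (mn_tendsto hF).const_mul c
    exact h.congr fun n => (av_smul c F n).symm
  · intro F G hF hG h
    exact le_of_tendsto_of_tendsto' (mn_tendsto hF) (mn_tendsto hG) fun n => av_mono h n
  · refine mn_eq ⟨1, fun _ => by simp⟩ ?_
    exact tendsto_const_nhds.congr fun n => (av_const 1 n).symm
  · intro g F hF
    obtain ⟨C, hC⟩ := hF
    have hF : Bd F := ⟨C, hC⟩
    refine mn_eq ⟨C, fun s => hC _⟩ ?_
    obtain ⟨k, rfl⟩ := gen_surj g
    have h0 : Tendsto (fun n : ℕ => 2 * C / ((n : ℝ) + 1)) atTop (𝓝 0) :=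
      tendsto_const_nhds.div_atTop (tendsto_natCast_atTop_atTop.atTop_add tendsto_const_nhds)
    have h1 : Tendsto (fun n => av (fun s => F (gen k * s)) n - av F n) atTop (𝓝 0) := by
      refine squeeze_zero_norm' ?_ h0
      filter_upwards [eventually_ge_atTop k] with n hn
      have := av_shift hC n (⟨k, Nat.lt_succ_of_le hn⟩ : Fin (n + 1))
      simpa [Real.norm_eq_abs] using this
    have h2 : Tendsto (fun n => av (fun s => F (gen k * s)) n - av F n)
        (hyperfilter ℕ : Filter ℕ) (𝓝 0) := h1.mono_left Nat.hyperfilter_le_atTop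
    have h3 := h2.add (mn_tendsto hF)
    rw [zero_add] at h3
    exact h3.congr fun n => by ring

end Pool.Agent.helper1.PR
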